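import Pool.Agent.E8helper9.NL.Main

/-!
# Algebras all of whose proper subalgebras are nilpotent: images of finite Baer height

`F` is any field, for instance `ℚ`. All algebras are associative and not necessarily unital. The Baer
chain of an algebra `C` is `N_0 = 0`, and `N_(m+1)` is the sum of the two-sided ideals whose square is
contained in `N_m`; `C` has finite Baer height if `C = N_m` for some `m`. This is so if `C` is a sum of
two-sided ideals which are nilpotent of bounded index.

Theorem: if all proper subalgebras of `A` are nilpotent and `A` has a nonzero homomorphic image `C`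
(for instance `C = A`) of finite Baer height, or `C` is the sum of its two-sided ideals `I` with
`I ^ (k + 1) = 0` for some `k`, then `A` is nilpotent.
-/

set_option autoImplicit false

namespace Pool.Agent.Results.MP_3938c6_al.FiniteBaerHeightH9

/-- The Baer chain of `C`: `baer 0 = 0`, and `baer (m + 1)` is the sum of the two-sided ideals `V`
(subspaces with `C V ⊆ V` and `V C ⊆ V`) whose square is contained in `baer m`. -/
def baer (F C : Type*) [Field F] [NonUnitalRing C] [Module F C] : ℕ → Submodule F C
  | 0 => ⊥
  | m + 1 => ⨆ V : {V : Submodule F C // (∀ y ∈ V, ∀ b : C, b * y ∈ V ∧ y * b ∈ V) ∧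
      ∀ y ∈ V, ∀ z ∈ V, y * z ∈ baer F C m}, V.1

/-- Let `A` be an associative, not necessarily unital, algebra over a field `F` all of whose proper
subalgebras are nilpotent, and `C` a nonzero homomorphic image of `A` (for instance `A` itself). If
`C` has finite Baer height, or is the sum of its two-sided ideals `I` with `I ^ (k + 1) = 0` for
some `k`, then `A` is nilpotent. -/
theorem result {F A C : Type*} [Field F]
    [NonUnitalRing A] [Module F A] [IsScalarTower F A A] [SMulCommClass F A A]
    [NonUnitalRing C] [Module F C] [IsScalarTower F C C] [SMulCommClass F C C] [Nontrivial C]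
    (hprop : ∀ B : NonUnitalSubalgebra F A, B ≠ ⊤ →
      ∃ n : ℕ, ∀ a ∈ B, ∀ l : List A, (∀ x ∈ l, x ∈ B) → l.length = n →
        l.foldl (fun x y => x * y) a = 0)
    (f : A →ₙₐ[F] C) (hf : Function.Surjective f)
    (h : (∃ m : ℕ, baer F C m = ⊤) ∨
      ∃ k : ℕ, Submodule.span F {x : C | ∃ I : Submodule F C,
        (∀ y ∈ I, ∀ b : C, b * y ∈ I ∧ y * b ∈ I) ∧ x ∈ I ∧
        ∀ y ∈ I, ∀ l : List C, (∀ z ∈ l, z ∈ I) → l.length = k →
          l.foldl (fun x y => x * y) y = 0} = ⊤) :
    ∃ n : ℕ, ∀ a : A, ∀ l : List A, l.length = n → l.foldl (fun x y => x * y) a = 0 := by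
  have hb : ∀ m, baer F C m = Pool.Agent.E8helper9.NL.baer F C m := by
    intro m
    induction m with
    | zero => rfl
    | succ m ih => rw [baer, Pool.Agent.E8helper9.NL.baer, ih]
  obtain ⟨n, hn⟩ := Pool.Agent.E8helper9.NL.main f hf hprop (by
    rcases h with ⟨m, hm⟩ | ⟨k, hk⟩
    · exact Or.inl ⟨m, by rw [← hb, hm]⟩
    · refine Or.inr ⟨k, ?_⟩
      rw [eq_top_iff, ← hk]
      refine Submodule.span_le.2 ?_
      rintro x ⟨I, hI, hxI, hnil⟩
      exact Submodule.mem_iSup_of_mem (p := fun I : {I : Submodule F C //
        Pool.Agent.E8helper9.NL.SmallIdeal k I} => I.1)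
        ⟨I, ⟨fun y hy b => (hI y hy b).1, fun y hy b => (hI y hy b).2, hnil⟩⟩ hxI)
  exact ⟨n, fun a l hl => hn a (Set.mem_univ a) l (fun x _ => Set.mem_univ x) hl⟩

end Pool.Agent.Results.MP_3938c6_al.FiniteBaerHeightH9
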